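import Mathlib
import Pool.Agent.H17.DOm3

set_option autoImplicit false

namespace Pool.Agent.Results.MP_9098dd_gt.Powers
open Pool.Agent.H17.DO

theorem result :
    (∀ (X : Type) [TopologicalSpace X],
      (S1 X → ((∀ k, S1 (Fin k → X)) ↔ ∀ k, CCC (Fin k → X))) ∧
      (Sfin X → ((∀ k, Sfin (Fin k → X)) ↔ ∀ k, CCC (Fin k → X)))) ∧
    ((∀ (X : Type) [TopologicalSpace X], CCC X → ∀ k, CCC (Fin k → X)) →
      ∀ (X : Type) [TopologicalSpace X],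
        (S1 X → ∀ k, S1 (Fin k → X)) ∧ (Sfin X → ∀ k, Sfin (Fin k → X))) ∧
    ((∃ (T : Type) (_ : PartialOrder T) (ht : T → (Cardinal.aleph.{0} 1).ord.ToType),
        FreeSuslin T ht) →
      ∃ (X : Type) (_ : TopologicalSpace X), T3Space X ∧ S1 X ∧ Sfin X ∧
        ¬ S1 (Fin 2 → X) ∧ ¬ Sfin (Fin 2 → X)) := by
  refine ⟨fun X _ => ⟨fun h => ⟨fun h' k => (h' k).sfin.ccc, powOne h⟩,
    fun h => ⟨fun h' k => (h' k).ccc, powFin h⟩⟩, fun H X _ =>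
    ⟨fun h => powOne h (H X h.sfin.ccc), fun h => powFin h (H X h.ccc)⟩, ?_⟩
  rintro ⟨T, _, ht, h⟩
  exact ⟨Br T, inferInstance, br_t3 h, rep_S1 h (br_rep h), (rep_S1 h (br_rep h)).sfin,
    fun h' => rep_not h (br_rep h) h'.sfin.ccc, fun h' => rep_not h (br_rep h) h'.ccc⟩

end Pool.Agent.Results.MP_9098dd_gt.Powers
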